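import Mathlib.Data.Nat.Prime.Basic
import Mathlib.Data.Nat.GCD.Basic
import Mathlib.Algebra.BigOperators.Group.Finset.Basic
import Mathlib.Algebra.Order.BigOperators.Group.Finset
import Mathlib.Data.List.Prime
import Mathlib.Order.Interval.Finset.Nat
import Mathlib.Tactic.Ring
import Mathlib.Tactic.NormNum
import Mathlib.Tactic.NormNum.Prime
import Mathlib.Tactic.Linarith
import Mathlib.Tactic.IntervalCases

/-!
Kernel-friendly checker for the pairs of consecutive primes with difference `6`.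
-/

set_option autoImplicit false

namespace Pool.Agent.Q47.Wolf

open Finset

/-- `p` and `p + h` are consecutive primes. -/
def GapPair (h p : ℕ) : Prop := p.Prime ∧ (p + h).Prime ∧ ∀ q, p < q → q < p + h → ¬ q.Prime

/-- the scale -/
def K : ℕ := 1000000000000000

/-- the test of one number -/
def ok (M p q : ℕ) : Bool :=
  and (Nat.ble (Nat.succ p) q)
    (and (Nat.beq (Nat.gcd (Nat.mul q (Nat.add q 6)) M) 1)
      (and (not (Nat.beq (Nat.gcd (Nat.add q 2) M) 1)) (not (Nat.beq (Nat.gcd (Nat.add q 4) M) 1))))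

/-- one entry -/
def stepf (M p q acc N : ℕ) (ih : ℕ → ℕ → ℕ → Bool) : Bool :=
  and (ok M p q)
    (ih q (Nat.div N 4096) (Nat.add acc (Nat.add (Nat.div K q) (Nat.div K (Nat.add q 6)))))

/-- a word of `c` entries of 12 bits -/
noncomputable def word (M : ℕ) (k : ℕ → ℕ → Bool) (c : ℕ) : ℕ → ℕ → ℕ → Bool :=
  Nat.rec (motive := fun _ => ℕ → ℕ → ℕ → Bool)
    (fun p _ acc => k p acc)
    (fun _ ih p N acc => stepf M p (Nat.add p (Nat.mul 2 (Nat.mod N 4096))) acc N ih) c

/-- a list of words -/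
noncomputable def chk (M c : ℕ) (e s : ℕ) (l : List ℕ) : ℕ → ℕ → Bool :=
  List.rec (motive := fun _ => ℕ → ℕ → Bool)
    (fun p acc => and (Nat.beq p e) (Nat.ble s acc))
    (fun w _ ih p acc => word M (fun p' acc' => and (Nat.ble acc' K) (ih p' acc')) c p w acc) l

/-- the conditions which are tested -/
def Raw (M q : ℕ) : Prop :=
  Nat.gcd (q * (q + 6)) M = 1 ∧ Nat.gcd (q + 2) M ≠ 1 ∧ Nat.gcd (q + 4) M ≠ 1

/-- the contribution of one number -/
def con (q : ℕ) : ℕ := K / q + K / (q + 6)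

theorem ok_spec {M p q : ℕ} (h : ok M p q = true) : p < q ∧ Raw M q := by
  unfold ok at h
  simp only [Bool.and_eq_true, Bool.not_eq_true'] at h
  obtain ⟨h1, h2, h3, h4⟩ := h
  refine ⟨Nat.le_of_ble_eq_true h1, Nat.eq_of_beq_eq_true h2, ?_, ?_⟩
  · exact Nat.ne_of_beq_eq_false h3
  · exact Nat.ne_of_beq_eq_false h4

theorem word_spec (M : ℕ) (k : ℕ → ℕ → Bool) (c : ℕ) : ∀ p N acc, word M k c p N acc = true →
    ∃ p' acc', p ≤ p' ∧ k p' acc' = true ∧ ∃ T : Finset ℕ, (∀ q ∈ T, p < q ∧ q ≤ p' ∧ Raw M q) ∧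
      acc' = acc + ∑ q ∈ T, con q := by
  induction c with
  | zero =>
    intro p N acc h
    exact ⟨p, acc, le_rfl, h, ∅, by simp, by simp⟩
  | succ c ih =>
    intro p N acc h
    have h1 : stepf M p (Nat.add p (Nat.mul 2 (Nat.mod N 4096))) acc N (word M k c) = true := h
    obtain ⟨q, hq⟩ : ∃ q, q = Nat.add p (Nat.mul 2 (Nat.mod N 4096)) := ⟨_, rfl⟩
    rw [← hq] at h1
    unfold stepf at h1
    rw [Bool.and_eq_true] at h1
    obtain ⟨h2, h3⟩ := h1
    obtain ⟨hlt, hraw⟩ := ok_spec h2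
    obtain ⟨p', acc', hp', hk, T, hT, hacc⟩ := ih _ _ _ h3
    have hnot : q ∉ T := fun hmem => absurd (hT q hmem).1 (lt_irrefl _)
    refine ⟨p', acc', by omega, hk, insert q T, ?_, ?_⟩
    · intro r hr
      rw [mem_insert] at hr
      rcases hr with rfl | hr
      · exact ⟨hlt, hp', hraw⟩
      · obtain ⟨a1, a2, a3⟩ := hT r hr
        exact ⟨by omega, a2, a3⟩
    · rw [sum_insert hnot, hacc]
      change acc + (K / q + K / (q + 6)) + _ = acc + (con q + _)
      unfold con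
      ring

theorem chk_spec (M c e s : ℕ) (l : List ℕ) : ∀ p acc, chk M c e s l p acc = true →
    p ≤ e ∧ ∃ T : Finset ℕ, (∀ q ∈ T, p < q ∧ q ≤ e ∧ Raw M q) ∧
      s ≤ acc + ∑ q ∈ T, con q := by
  induction l with
  | nil =>
    intro p acc h
    have h1 : and (Nat.beq p e) (Nat.ble s acc) = true := h
    rw [Bool.and_eq_true] at h1
    have h2 := Nat.eq_of_beq_eq_true h1.1
    have h3 := Nat.le_of_ble_eq_true h1.2
    exact ⟨h2.le, ∅, by simp, by simpa using h3⟩
  | cons w l ih =>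
    intro p acc h
    obtain ⟨p', acc', hp', hk, T, hT, hacc⟩ := word_spec M _ c p w acc h
    rw [Bool.and_eq_true] at hk
    obtain ⟨h1, T', hT', hs⟩ := ih p' acc' hk.2
    have hdisj : Disjoint T T' := by
      rw [Finset.disjoint_left]
      intro q h2 h3
      have h4 := (hT q h2).2.1
      have h5 := (hT' q h3).1
      omega
    refine ⟨by omega, T ∪ T', ?_, ?_⟩
    · intro q hq
      rw [mem_union] at hq
      rcases hq with hq | hq
      · obtain ⟨a1, a2, a3⟩ := hT q hq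
        exact ⟨a1, by omega, a3⟩
      · obtain ⟨a1, a2, a3⟩ := hT' q hq
        exact ⟨by omega, a2, a3⟩
    · rw [sum_union hdisj]
      omega

/-- what is known about a modulus -/
structure Mod (M n : ℕ) : Prop where
  dvd : ∀ d : ℕ, d.Prime → d ≤ n → d ∣ M
  le : ∀ d : ℕ, d.Prime → d ∣ M → d ≤ n

theorem Mod.prime {M n m : ℕ} (hM : Mod M n) (h1 : 1 < m) (h2 : m < (n + 1) ^ 2)
    (h : Nat.gcd m M = 1) : m.Prime := by
  by_contra hp
  have h2' := Nat.minFac_sq_le_self (by omega) hp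
  have h3 : m.minFac < n + 1 := by
    by_contra h4
    have h5 : n + 1 ≤ m.minFac := by omega
    have h6 := Nat.pow_le_pow_left h5 2
    omega
  have h9 := Nat.minFac_prime (show m ≠ 1 by omega)
  have h7 : m.minFac ∣ M := hM.dvd _ h9 (by omega)
  have h8 : m.minFac ∣ Nat.gcd m M := Nat.dvd_gcd (Nat.minFac_dvd m) h7
  rw [h] at h8
  exact h9.one_lt.ne' (Nat.dvd_one.1 h8)

theorem Mod.not_prime {M n m : ℕ} (hM : Mod M n) (h1 : n < m) (h : Nat.gcd m M ≠ 1) :
    ¬ m.Prime := by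
  intro hp
  rcases (Nat.coprime_or_dvd_of_prime hp M) with h2 | h2
  · exact h h2
  · have := hM.le m hp h2
    omega

theorem Mod.gap {M n q : ℕ} (hM : Mod M n) (hn : 2 ≤ n) (h1 : n < q) (h2 : q + 6 < (n + 1) ^ 2)
    (h : Raw M q) : GapPair 6 q := by
  obtain ⟨a1, a2, a3⟩ := h
  have b1 : Nat.gcd q M = 1 := Nat.Coprime.coprime_mul_right a1
  have b2 : Nat.gcd (q + 6) M = 1 := Nat.Coprime.coprime_mul_left a1
  have hq := hM.prime (by omega) (by omega) b1
  have hodd : q % 2 = 1 := by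
    rcases hq.eq_two_or_odd with h3 | h3
    · omega
    · exact h3
  refine ⟨hq, hM.prime (by omega) h2 b2, ?_⟩
  intro r hr1 hr2
  have hcase : r = q + 2 ∨ r = q + 4 ∨ r % 2 = 0 := by omega
  rcases hcase with rfl | rfl | h3
  · exact hM.not_prime (by omega) a2
  · exact hM.not_prime (by omega) a3
  · intro hp
    rcases hp.eq_two_or_odd with h4 | h4 <;> omega

/-- the result for a segment: pairs in `(a, b]` with contributions at least `s` -/
def Seg (a b s : ℕ) : Prop :=
  a ≤ b ∧ ∃ T : Finset ℕ, (∀ q ∈ T, a < q ∧ q ≤ b ∧ GapPair 6 q) ∧ s ≤ ∑ q ∈ T, con q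

theorem Seg.trans {a b c s t : ℕ} (h1 : Seg a b s) (h2 : Seg b c t) : Seg a c (s + t) := by
  obtain ⟨hab, T, hT, hs⟩ := h1
  obtain ⟨hbc, T', hT', ht⟩ := h2
  have hdisj : Disjoint T T' := by
    rw [Finset.disjoint_left]
    intro q h2 h3
    have h4 := (hT q h2).2.1
    have h5 := (hT' q h3).1
    omega
  refine ⟨by omega, T ∪ T', ?_, ?_⟩
  · intro q hq
    rw [mem_union] at hq
    rcases hq with hq | hq
    · obtain ⟨a1, a2, a3⟩ := hT q hq
      exact ⟨a1, by omega, a3⟩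
    · obtain ⟨a1, a2, a3⟩ := hT' q hq
      exact ⟨by omega, a2, a3⟩
  · rw [sum_union hdisj]
    omega

theorem Mod.seg {M n c a e s : ℕ} {l : List ℕ} (hM : Mod M n) (hn : 2 ≤ n) (h1 : n ≤ a)
    (h2 : e + 6 < (n + 1) ^ 2) (h : chk M c e s l a 0 = true) : Seg a e s := by
  obtain ⟨hae, T, hT, hs⟩ := chk_spec M c e s l a 0 h
  refine ⟨hae, T, fun q hq => ?_, by simpa using hs⟩
  obtain ⟨a1, a2, a3⟩ := hT q hq
  exact ⟨a1, a2, hM.gap hn (by omega) (by omega) a3⟩

/-- `f k` holds for all `k < n`. -/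
noncomputable def allBelow (f : ℕ → Bool) (n : ℕ) : Bool :=
  Nat.rec (motive := fun _ => Bool) true (fun k ih => and (f k) ih) n

theorem allBelow_spec {f : ℕ → Bool} {n : ℕ} (h : allBelow f n = true) :
    ∀ k < n, f k = true := by
  induction n with
  | zero => intro k hk; omega
  | succ n ih =>
    have h' : and (f n) (allBelow f n) = true := h
    rw [Bool.and_eq_true] at h'
    intro k hk
    rcases Nat.lt_succ_iff_lt_or_eq.1 hk with h1 | h1
    · exact ih h'.2 k h1
    · rw [h1]; exact h'.1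

/-- the product of a list -/
noncomputable def prodL (l : List ℕ) : ℕ :=
  List.rec (motive := fun _ => ℕ) 1 (fun p _ ih => Nat.mul p ih) l

theorem prodL_eq (l : List ℕ) : prodL l = l.prod := by
  induction l with
  | nil => rfl
  | cons p l ih =>
    change p * prodL l = _
    rw [ih, List.prod_cons]

/-- all elements of a list are at most `n` -/
noncomputable def allLe (n : ℕ) (l : List ℕ) : Bool :=
  List.rec (motive := fun _ => Bool) true (fun p _ ih => and (Nat.ble p n) ih) l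

theorem allLe_spec {n : ℕ} {l : List ℕ} (h : allLe n l = true) : ∀ p ∈ l, p ≤ n := by
  induction l with
  | nil => intro p hp; simp at hp
  | cons p l ih =>
    have h' : and (Nat.ble p n) (allLe n l) = true := h
    rw [Bool.and_eq_true] at h'
    intro q hq
    rw [List.mem_cons] at hq
    rcases hq with rfl | hq
    · exact Nat.le_of_ble_eq_true h'.1
    · exact ih h'.2 q hq

theorem mod_of_list {M n : ℕ} {l : List ℕ} (hl : allLe n l = true) (hp : Nat.beq (prodL l) M = true)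
    (hd : ∀ d : ℕ, d.Prime → d ≤ n → d ∣ M) (h0 : ∀ p ∈ l, p ≠ 0) : Mod M n := by
  refine ⟨hd, ?_⟩
  intro d hdp hdM
  have h1 := Nat.eq_of_beq_eq_true hp
  rw [prodL_eq] at h1
  rw [← h1] at hdM
  obtain ⟨p, hpl, hdp'⟩ := (Prime.dvd_prod_iff hdp.prime).1 hdM
  exact (Nat.le_of_dvd (Nat.pos_of_ne_zero (h0 p hpl)) hdp').trans (allLe_spec hl p hpl)

/-- bootstrapping the divisibility by all primes `≤ n` from the modulus `M₀` for `n₀` -/
theorem dvd_of_check {M₀ n₀ M n : ℕ} (hM₀ : Mod M₀ n₀) (h0 : Nat.beq (Nat.mod M M₀) 0 = true)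
    (h : allBelow (fun k => or (Nat.ble (Nat.succ k) n₀) (or (Nat.beq (Nat.mod M (Nat.succ k)) 0)
      (not (Nat.beq (Nat.gcd (Nat.succ k) M₀) 1)))) n = true) :
    ∀ d : ℕ, d.Prime → d ≤ n → d ∣ M := by
  intro d hd hdn
  have hd1 := hd.one_lt
  have h1 := allBelow_spec h (d - 1) (by omega)
  have e : Nat.succ (d - 1) = d := by omega
  rw [e] at h1
  simp only [Bool.or_eq_true, Bool.not_eq_true'] at h1
  rcases h1 with h2 | h2 | h3
  · exact (hM₀.dvd d hd (Nat.le_of_ble_eq_true h2)).trans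
      (Nat.dvd_of_mod_eq_zero (Nat.eq_of_beq_eq_true h0))
  · exact Nat.dvd_of_mod_eq_zero (Nat.eq_of_beq_eq_true h2)
  · by_cases h4 : d ≤ n₀
    · exact (hM₀.dvd d hd h4).trans (Nat.dvd_of_mod_eq_zero (Nat.eq_of_beq_eq_true h0))
    · exact absurd hd (hM₀.not_prime (by omega) (Nat.ne_of_beq_eq_false h3))

end Pool.Agent.Q47.Wolf
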