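import Mathlib
import Pool.Agent.Erdos456.Sieve
import Pool.Agent.Q47.Wolf.Core

/-!
Convergence of the sums over prime pairs, and an upper bound for the twin prime constant.
-/

set_option autoImplicit false

namespace Pool.Agent.Q47.Wolf

open Finset Filter Topology

/-! ### Convergence -/

theorem pair_count (h : ℕ) (hh : 0 < h) : ∃ C : ℝ, 0 < C ∧ ∀ N : ℕ, 2 ≤ N →
    (((Finset.Icc 1 N).filter (fun n => n.Prime ∧ (n + h).Prime)).card : ℝ)
      ≤ C * N / (Real.log N) ^ 2 := by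
  obtain ⟨C, hC, h1⟩ := Pool.Agent.Erdos456.sieve_two
  refine ⟨C * (((1 * 1 * (((1 * h : ℕ) : ℤ) - ((1 * 0 : ℕ) : ℤ)).natAbs : ℕ) : ℝ) /
        ((Nat.totient (1 * 1 * (((1 * h : ℕ) : ℤ) - ((1 * 0 : ℕ) : ℤ)).natAbs) : ℕ) : ℝ)) ^ 2, ?_, ?_⟩
  · have e : (1 * 1 * (((1 * h : ℕ) : ℤ) - ((1 * 0 : ℕ) : ℤ)).natAbs : ℕ) = h := by simp
    rw [e]
    have : 0 < Nat.totient h := Nat.totient_pos.2 hh
    have h2 : (0 : ℝ) < (Nat.totient h : ℝ) := by exact_mod_cast this
    have h3 : (0 : ℝ) < (h : ℝ) := by exact_mod_cast hh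
    positivity
  · intro N hN
    have h2 := h1 1 0 1 h N one_pos one_pos (by simp) (by simp) (by omega) hN
    simp only [one_mul, add_zero] at h2 ⊢
    exact h2

/-- the terms of the sum over all prime pairs -/
noncomputable def g (h n : ℕ) : ℝ := if n.Prime ∧ (n + h).Prime then 1 / (n : ℝ) else 0

theorem g_nonneg (h n : ℕ) : 0 ≤ g h n := by
  unfold g
  split_ifs
  · positivity
  · exact le_rfl

theorem summable_g (h : ℕ) (hh : 0 < h) : Summable (g h) := by
  obtain ⟨C, hC, hcount⟩ := pair_count h hh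
  have hS : Summable (fun j : ℕ => 2 * C / Real.log 2 ^ 2 * (1 / ((j : ℝ) + 1) ^ 2)) := by
    apply Summable.mul_left
    have := (summable_nat_add_iff 1).2 (Real.summable_one_div_nat_pow.2 (by norm_num : 1 < 2))
    simpa using this
  have hlog2 : 0 < Real.log 2 := Real.log_pos (by norm_num)
  have hblock : ∀ j : ℕ, ∑ n ∈ Ico (2 ^ j) (2 ^ (j + 1)), g h n
      ≤ 2 * C / Real.log 2 ^ 2 * (1 / ((j : ℝ) + 1) ^ 2) := by
    intro j
    have h1 : ∑ n ∈ Ico (2 ^ j) (2 ^ (j + 1)), g h n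
        ≤ (((Finset.Icc 1 (2 ^ (j + 1))).filter (fun n => n.Prime ∧ (n + h).Prime)).card : ℝ)
          * (1 / 2 ^ j) := by
      calc ∑ n ∈ Ico (2 ^ j) (2 ^ (j + 1)), g h n
          ≤ ∑ n ∈ Ico (2 ^ j) (2 ^ (j + 1)),
            (if n.Prime ∧ (n + h).Prime then (1 : ℝ) / 2 ^ j else 0) := by
            apply sum_le_sum
            intro n hn
            rw [mem_Ico] at hn
            unfold g
            split_ifs
            · apply one_div_le_one_div_of_le (by positivity)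
              exact_mod_cast hn.1
            · exact le_rfl
        _ ≤ ∑ n ∈ Icc 1 (2 ^ (j + 1)),
            (if n.Prime ∧ (n + h).Prime then (1 : ℝ) / 2 ^ j else 0) := by
            apply sum_le_sum_of_subset_of_nonneg
            · intro n hn
              rw [mem_Ico] at hn
              rw [mem_Icc]
              have : 0 < 2 ^ j := by positivity
              omega
            · intro n _ _
              positivity
        _ = _ := by
            rw [← sum_filter, sum_const, nsmul_eq_mul]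
    have h2 := hcount (2 ^ (j + 1)) (by
      calc 2 = 2 ^ 1 := by norm_num
        _ ≤ 2 ^ (j + 1) := Nat.pow_le_pow_right (by norm_num) (by omega))
    have h3 : Real.log ((2 ^ (j + 1) : ℕ) : ℝ) = (j + 1) * Real.log 2 := by
      push_cast
      rw [Real.log_pow]
      push_cast
      ring
    rw [h3] at h2
    calc ∑ n ∈ Ico (2 ^ j) (2 ^ (j + 1)), g h n ≤ _ := h1
      _ ≤ (C * ((2 ^ (j + 1) : ℕ) : ℝ) / ((j + 1) * Real.log 2) ^ 2) * (1 / 2 ^ j) :=
          mul_le_mul_of_nonneg_right h2 (by positivity)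
      _ = 2 * C / Real.log 2 ^ 2 * (1 / ((j : ℝ) + 1) ^ 2) := by
          push_cast
          rw [pow_succ]
          field_simp
  have hpow : ∀ J : ℕ, ∑ n ∈ range (2 ^ J), g h n
      ≤ ∑ j ∈ range J, 2 * C / Real.log 2 ^ 2 * (1 / ((j : ℝ) + 1) ^ 2) := by
    intro J
    induction J with
    | zero =>
      simp [g, Nat.not_prime_zero]
    | succ J ih =>
      rw [sum_range_succ, ← Finset.sum_range_add_sum_Ico (g h)
        (Nat.pow_le_pow_right (by norm_num) (by omega : J ≤ J + 1))]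
      exact add_le_add ih (hblock J)
  apply summable_of_sum_range_le (g_nonneg h)
    (c := ∑' j : ℕ, 2 * C / Real.log 2 ^ 2 * (1 / ((j : ℝ) + 1) ^ 2))
  intro n
  calc ∑ i ∈ range n, g h i ≤ ∑ i ∈ range (2 ^ n), g h i := by
        apply sum_le_sum_of_subset_of_nonneg
        · intro i hi
          rw [mem_range] at hi ⊢
          exact hi.trans Nat.lt_two_pow_self
        · intro i _ _
          exact g_nonneg h i
    _ ≤ _ := hpow n
    _ ≤ _ := hS.sum_le_tsum _ (fun j _ => by positivity)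

theorem summable_gap (h : ℕ) (hh : 0 < h) :
    Summable (fun p : {p : ℕ // GapPair h p} => 1 / (p : ℝ) + 1 / ((p : ℝ) + h)) := by
  have h1 : Summable (fun p : {p : ℕ // GapPair h p} => 2 * g h p) :=
    ((summable_g h hh).mul_left 2).comp_injective Subtype.val_injective
  refine Summable.of_nonneg_of_le (fun p => by positivity) ?_ h1
  rintro ⟨p, hp⟩
  have h2 : g h p = 1 / (p : ℝ) := by
    unfold g
    rw [if_pos ⟨hp.1, hp.2.1⟩]
  change 1 / (p : ℝ) + 1 / ((p : ℝ) + h) ≤ 2 * g h p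
  rw [h2]
  have hp0 : (0 : ℝ) < p := by exact_mod_cast hp.1.pos
  have h3 : 1 / ((p : ℝ) + h) ≤ 1 / p := by
    apply one_div_le_one_div_of_le hp0
    have : (0 : ℝ) ≤ h := by positivity
    linarith
  linarith

/-! ### The twin prime constant -/

/-- the twin prime constant: the product over the odd primes of `1 - 1 / (p - 1)^2` -/
noncomputable def twinConst : ℝ :=
  ∏' p : {p : ℕ // p.Prime ∧ 2 < p}, (1 - 1 / ((p : ℝ) - 1) ^ 2)

theorem multipliable_twin :
    Multipliable (fun p : {p : ℕ // p.Prime ∧ 2 < p} => (1 - 1 / ((p : ℝ) - 1) ^ 2)) := by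
  have h1 : Summable (fun p : {p : ℕ // p.Prime ∧ 2 < p} => -(1 / ((p : ℝ) - 1) ^ 2)) := by
    apply Summable.neg
    have h2 : Summable (fun n : ℕ => 4 * (1 / (n : ℝ) ^ 2)) :=
      (Real.summable_one_div_nat_pow.2 (by norm_num : 1 < 2)).mul_left 4
    refine Summable.of_nonneg_of_le (fun p => by positivity) ?_
      (h2.comp_injective (Subtype.val_injective (p := fun p : ℕ => p.Prime ∧ 2 < p)))
    rintro ⟨p, hp⟩
    have hp3 : (3 : ℝ) ≤ p := by exact_mod_cast hp.2
    change 1 / ((p : ℝ) - 1) ^ 2 ≤ 4 * (1 / (p : ℝ) ^ 2)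
    rw [mul_one_div, div_le_div_iff₀ (by nlinarith) (by positivity)]
    nlinarith
  have h3 := Real.multipliable_one_add_of_summable h1
  simpa [sub_eq_add_neg] using h3

theorem factor_bounds (p : {p : ℕ // p.Prime ∧ 2 < p}) :
    0 ≤ (1 - 1 / ((p : ℝ) - 1) ^ 2) ∧ (1 - 1 / ((p : ℝ) - 1) ^ 2) ≤ 1 := by
  have hp3 : (3 : ℝ) ≤ (p : ℕ) := by exact_mod_cast p.2.2
  have h1 : 1 / (((p : ℕ) : ℝ) - 1) ^ 2 ≤ 1 := by
    rw [div_le_one (by nlinarith)]
    nlinarith
  have h2 : 0 ≤ 1 / (((p : ℕ) : ℝ) - 1) ^ 2 := by positivity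
  constructor <;> linarith

theorem twinConst_le (s : Finset {p : ℕ // p.Prime ∧ 2 < p}) :
    twinConst ≤ ∏ p ∈ s, (1 - 1 / ((p : ℝ) - 1) ^ 2) := by
  have h1 := multipliable_twin.hasProd
  have h2 : Tendsto (fun t : Finset {p : ℕ // p.Prime ∧ 2 < p} =>
      ∏ p ∈ t, (1 - 1 / ((p : ℝ) - 1) ^ 2)) atTop (𝓝 twinConst) := h1
  apply le_of_tendsto h2
  filter_upwards [eventually_ge_atTop s] with t ht
  classical
  rw [← Finset.prod_sdiff ht]
  have h3 : ∏ p ∈ t \ s, (1 - 1 / ((p : ℝ) - 1) ^ 2) ≤ 1 :=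
    Finset.prod_le_one (fun p _ => (factor_bounds p).1) (fun p _ => (factor_bounds p).2)
  have h4 : 0 ≤ ∏ p ∈ s, (1 - 1 / ((p : ℝ) - 1) ^ 2) :=
    Finset.prod_nonneg (fun p _ => (factor_bounds p).1)
  exact mul_le_of_le_one_left h4 h3

/-- the partial product over a list of odd primes -/
theorem twinConst_le_list (l : List ℕ) (hl : ∀ p ∈ l, p.Prime ∧ 2 < p) (hn : l.Nodup) :
    twinConst ≤ (l.map (fun p : ℕ => (1 - 1 / ((p : ℝ) - 1) ^ 2))).prod := by
  have h1 := twinConst_le (l.attach.map (fun p => ⟨p.1, hl p.1 p.2⟩ :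
    {x // x ∈ l} → {p : ℕ // p.Prime ∧ 2 < p})).toFinset
  refine h1.trans (le_of_eq ?_)
  have hnd : (l.attach.map (fun p => ⟨p.1, hl p.1 p.2⟩ :
    {x // x ∈ l} → {p : ℕ // p.Prime ∧ 2 < p})).Nodup := by
    apply List.Nodup.map _ (List.nodup_attach.2 hn)
    intro a b hab
    simp only [Subtype.mk.injEq] at hab
    exact Subtype.ext hab
  rw [List.prod_toFinset _ hnd, List.map_map]
  conv_rhs => rw [← List.attach_map_subtype_val l, List.map_map]
  rfl

end Pool.Agent.Q47.Wolf
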