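import Pool.Agent.Q47.Wolf.Mods

/-!
The small pairs.
-/

set_option autoImplicit false
set_option maxRecDepth 100000

namespace Pool.Agent.Q47.Wolf

def dA : List ℕ := [5, 4, 8, 3, 4, 6, 5, 24, 10, 3, 5, 3]

def dB : List ℕ := [30, 9, 3, 3, 4, 30, 11, 7, 3, 5, 25, 5, 30, 19, 8, 3, 4, 8, 3, 4, 3, 20, 3, 12, 25, 3, 9, 95, 3,
  12, 3, 7, 11, 10, 15, 17, 3, 7, 3, 29, 3, 15, 3, 4, 26, 4, 15, 20, 3, 33, 10, 20, 25, 5, 24, 6, 4,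
  18, 42, 3, 3, 12, 42, 20, 3, 33, 7, 12, 26, 34, 38, 37, 3, 23, 4, 5, 10, 6, 5, 9, 3, 12, 13, 38, 4,
  60, 3, 8, 10, 39, 23, 7, 23, 3, 27, 3, 49, 11, 49, 11, 49, 3, 3, 5, 42, 52, 11, 4, 33, 5, 7, 3, 27,
  18, 3, 14, 18, 57, 6, 42, 3, 4, 15, 11, 10, 20, 39, 21, 15, 37, 17, 25, 5, 3, 25, 27, 15, 3, 23, 4,
  3, 8, 25, 35, 39, 16, 17, 7, 18, 3, 5, 39, 10, 3, 3, 17, 63, 12, 3, 39, 3, 3, 7, 12, 6, 14, 25, 18,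
  3, 39, 21, 14, 16, 29, 3, 7, 11, 4, 5, 18, 42, 28, 5, 10, 3, 69, 23, 3, 4, 20, 3, 3, 7, 8, 4, 3, 3,
  24, 71, 4, 41, 10, 15, 77, 3, 24, 25, 5, 3, 7, 11, 45, 9, 33, 13, 12, 5, 82, 20, 15, 18, 3, 9, 18,
  3, 30, 19, 18, 50, 3, 22, 17, 13, 42, 21, 14, 15, 3, 22, 38, 13, 24, 26, 30, 19, 30, 60, 11, 15, 7,
  3, 9, 5, 3, 42, 28, 18, 20, 19, 21, 30, 12, 12, 15, 11, 9, 61, 14, 10, 3, 8, 27, 3, 9, 21, 40, 5,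
  10, 45, 5, 19, 15, 11, 9, 25, 11, 22, 47, 16, 20, 15, 42, 3, 42, 132, 3, 22, 3, 33, 5, 49, 8, 3, 4,
  11, 10, 35, 7, 50, 82, 11, 19, 41, 22, 23, 4, 3, 45, 98, 9, 3, 7, 6, 32, 3, 12, 3, 10, 14, 31, 29,
  6, 15, 27, 33, 30, 64, 11, 9, 3, 7, 15, 3, 15, 3, 15, 14, 3, 3, 22, 30, 33, 35, 9, 21, 7, 3, 32, 3,
  25, 5, 9, 25, 3, 57, 20, 40, 20, 3, 3, 64, 11, 7, 27, 21, 14, 78, 72, 46, 5, 45, 49, 30, 15, 53, 3,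
  4, 35, 6, 42, 7, 5, 3, 3, 34, 35, 16, 14, 63, 12, 15, 28, 3, 17, 18, 4, 18, 3, 32, 42, 3, 67, 30,
  50, 3, 12, 3, 3, 7, 32, 10, 3, 3, 44, 45, 3, 60, 3, 22, 33, 15, 24, 5, 3, 27, 3, 30, 7, 3, 42, 21,
  24, 41, 30, 19, 5, 3, 22, 3, 17, 10, 3, 23, 12, 33, 55, 14, 3, 25, 33, 14, 3, 3, 4, 41, 67, 38, 60,
  10, 24, 5, 70, 11, 34, 3, 3, 39, 63, 3, 9, 68, 63, 15, 22, 5, 88]

theorem segA : Seg 13 173 357732036963054 :=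
  mod1.seg (c := 1) (l := dA) (by norm_num) (by norm_num) (by norm_num) (by decide +kernel)

theorem segB : Seg 173 18973 301732529551729 :=
  mod2.seg (c := 1) (l := dB) (by norm_num) (by norm_num) (by norm_num) (by decide +kernel)

theorem segAB : Seg 13 18973 659464566514783 := segA.trans segB

end Pool.Agent.Q47.Wolf
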