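import Pool.Agent.Q47.Wolf.Analytic
import Pool.Agent.Q47.Wolf.SegA
import Pool.Agent.Q47.Wolf.Seg00
import Pool.Agent.Q47.Wolf.Seg01
import Pool.Agent.Q47.Wolf.Seg02
import Pool.Agent.Q47.Wolf.Seg03
import Pool.Agent.Q47.Wolf.Seg04
import Pool.Agent.Q47.Wolf.Seg05
import Pool.Agent.Q47.Wolf.Seg06
import Pool.Agent.Q47.Wolf.Seg07
import Pool.Agent.Q47.Wolf.Seg08
import Pool.Agent.Q47.Wolf.Seg09
import Pool.Agent.Q47.Wolf.Seg10
import Pool.Agent.Q47.Wolf.Seg11
import Pool.Agent.Q47.Wolf.Seg12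
import Pool.Agent.Q47.Wolf.Seg13
import Pool.Agent.Q47.Wolf.Seg14
import Pool.Agent.Q47.Wolf.Seg15
import Pool.Agent.Q47.Wolf.Seg16
import Pool.Agent.Q47.Wolf.Seg17
import Pool.Agent.Q47.Wolf.Seg18
import Pool.Agent.Q47.Wolf.Seg19

/-!
Wolf's formula fails for the difference 6.
-/

set_option autoImplicit false
set_option maxRecDepth 100000

namespace Pool.Agent.Q47.Wolf

open Finset

theorem segAll : Seg 13 305937397 880515842829664 :=
  ((((((((((((((((((((segAB.trans seg00).trans seg01).trans seg02).trans seg03).trans seg04).trans seg05).trans seg06).trans seg07).trans seg08).trans seg09).trans seg10).trans seg11).trans seg12).trans seg13).trans seg14).trans seg15).trans seg16).trans seg17).trans seg18).trans seg19)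

/-- the odd primes up to `499` -/
def lC : List ℕ := [3, 5, 7, 11, 13, 17, 19, 23, 29, 31, 37, 41, 43, 47, 53, 59, 61, 67, 71, 73, 79, 83, 89, 97, 101,
  103, 107, 109, 113, 127, 131, 137, 139, 149, 151, 157, 163, 167, 173, 179, 181, 191, 193, 197, 199,
  211, 223, 227, 229, 233, 239, 241, 251, 257, 263, 269, 271, 277, 281, 283, 293, 307, 311, 313, 317,
  331, 337, 347, 349, 353, 359, 367, 373, 379, 383, 389, 397, 401, 409, 419, 421, 431, 433, 439, 443,
  449, 457, 461, 463, 467, 479, 487, 491, 499]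

/-- product of the `(p - 1)^2` -/
noncomputable def denL (l : List ℕ) : ℕ :=
  List.rec (motive := fun _ => ℕ) 1 (fun p _ ih => Nat.mul (Nat.mul (Nat.sub p 1) (Nat.sub p 1)) ih) l

/-- product of the `(p - 1)^2 - 1` -/
noncomputable def numL (l : List ℕ) : ℕ :=
  List.rec (motive := fun _ => ℕ) 1
    (fun p _ ih => Nat.mul (Nat.sub (Nat.mul (Nat.sub p 1) (Nat.sub p 1)) 1) ih) l

theorem prod_mul_denL (l : List ℕ) (h : ∀ p ∈ l, 2 < p) :
    (l.map (fun p : ℕ => (1 - 1 / ((p : ℝ) - 1) ^ 2))).prod * (denL l : ℝ) = (numL l : ℝ) := by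
  induction l with
  | nil => simp [denL, numL]
  | cons p l ih =>
    have ih' := ih (fun q hq => h q (List.mem_cons_of_mem _ hq))
    have hp := h p (by simp)
    have e1 : denL (p :: l) = (p - 1) * (p - 1) * denL l := rfl
    have e2 : numL (p :: l) = ((p - 1) * (p - 1) - 1) * numL l := rfl
    have e3 : ((p - 1 : ℕ) : ℝ) = (p : ℝ) - 1 := by
      rw [Nat.cast_sub (by omega)]; norm_num
    have e4 : (((p - 1) * (p - 1) - 1 : ℕ) : ℝ) = ((p : ℝ) - 1) ^ 2 - 1 := by
      rw [Nat.cast_sub (by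
        have : 1 ≤ p - 1 := by omega
        nlinarith), Nat.cast_mul, e3]
      norm_num
      ring
    have hp3 : (3 : ℝ) ≤ p := by exact_mod_cast hp
    have hne : ((p : ℝ) - 1) ≠ 0 := by linarith
    rw [List.map_cons, List.prod_cons, e1, e2, Nat.cast_mul, Nat.cast_mul, Nat.cast_mul, e3, e4, ← ih']
    field_simp

theorem lC_prime : ∀ p ∈ lC, p.Prime ∧ 2 < p := by
  intro p hp
  have h2 : ∀ p ∈ lC, p < 500 ∧ 2 < p := by decide +kernel
  refine ⟨?_, (h2 p hp).2⟩
  by_cases h137 : p ≤ 137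
  · have h3 : ∀ p ∈ lC, p ≤ 137 → p ∈ l2 := by decide +kernel
    have h4 : ∀ p ∈ l2, p < 14 ∨ Nat.gcd p 30030 = 1 := by decide +kernel
    have h5 := h3 p hp h137
    rcases h4 p h5 with h6 | h6
    · have h7 : ∀ p ∈ lC, p < 14 → p = 3 ∨ p = 5 ∨ p = 7 ∨ p = 11 ∨ p = 13 := by decide +kernel
      rcases h7 p hp h6 with rfl | rfl | rfl | rfl | rfl <;> norm_num
    · exact mod1.prime (by have := (h2 p hp).2; omega) (by norm_num; omega) h6
  · have h3 : ∀ p ∈ lC, 137 < p → Nat.gcd p M2 = 1 := by decide +kernel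
    exact mod2.prime (by have := (h2 p hp).2; omega) (by have := (h2 p hp).1; norm_num; omega)
      (h3 p hp (by omega))

theorem lC_nodup : lC.Nodup := by decide +kernel

theorem twinConst_lt : twinConst ≤ 660343 / 1000000 := by
  refine (twinConst_le_list lC lC_prime lC_nodup).trans ?_
  have h1 := prod_mul_denL lC (fun p hp => (lC_prime p hp).2)
  have h2 : Nat.ble (Nat.mul 1000000 (numL lC)) (Nat.mul 660343 (denL lC)) = true := by
    decide +kernel
  have h3 : 1000000 * numL lC ≤ 660343 * denL lC := Nat.le_of_ble_eq_true h2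
  have h4 : (1000000 : ℝ) * numL lC ≤ 660343 * denL lC := by exact_mod_cast h3
  have h5 : 0 < denL lC := by
    have : Nat.ble 1 (denL lC) = true := by decide +kernel
    exact Nat.le_of_ble_eq_true this
  have h6 : (0 : ℝ) < denL lC := by exact_mod_cast h5
  rw [← h1] at h4
  rw [le_div_iff₀ (by norm_num)]
  refine le_of_mul_le_mul_right ?_ h6
  linarith

/-- the right-hand side of Wolf's formula -/
noncomputable def wolf (h : ℕ) : ℝ :=
  4 * twinConst / h * ∏ p ∈ h.primeFactors.filter (fun p => 2 < p), (((p : ℝ) - 1) / ((p : ℝ) - 2))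

/-- the sum of the reciprocals of the pairs of consecutive primes with difference `h` -/
noncomputable def Btilde (h : ℕ) : ℝ :=
  ∑' p : {p : ℕ // GapPair h p}, (1 / (p : ℝ) + 1 / ((p : ℝ) + h))

theorem wolf_six : wolf 6 ≤ 8804574 / 10000000 := by
  have h1 : (6 : ℕ).primeFactors.filter (fun p => 2 < p) = {3} := by
    rw [show (6 : ℕ) = 2 * 3 by norm_num, Nat.primeFactors_mul (by norm_num) (by norm_num),
      Nat.Prime.primeFactors Nat.prime_two, Nat.Prime.primeFactors Nat.prime_three]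
    decide
  unfold wolf
  rw [h1, prod_singleton]
  have := twinConst_lt
  push_cast
  linarith

theorem con_le (q : ℕ) : (con q : ℝ) ≤ K * (1 / (q : ℝ) + 1 / ((q : ℝ) + 6)) := by
  unfold con
  push_cast
  have h1 : ((K / q : ℕ) : ℝ) ≤ (K : ℝ) / q := Nat.cast_div_le
  have h2 : ((K / (q + 6) : ℕ) : ℝ) ≤ (K : ℝ) / ((q + 6 : ℕ) : ℝ) := Nat.cast_div_le
  push_cast at h2
  calc ((K / q : ℕ) : ℝ) + ((K / (q + 6) : ℕ) : ℝ) ≤ (K : ℝ) / q + (K : ℝ) / ((q : ℝ) + 6) :=
        add_le_add h1 h2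
    _ = _ := by ring

theorem Btilde_six : 8805158 / 10000000 ≤ Btilde 6 := by
  obtain ⟨_, T, hT, hs⟩ := segAll
  have hsum := summable_gap 6 (by norm_num)
  have h1 := hsum.sum_le_tsum
    (T.attach.map ⟨fun q => (⟨q.1, (hT q.1 q.2).2.2⟩ : {p : ℕ // GapPair 6 p}), by
      intro a b hab
      simp only [Subtype.mk.injEq] at hab
      exact Subtype.ext hab⟩) (fun p _ => by positivity)
  rw [sum_map] at h1
  have h1' : ∑ q ∈ T.attach, (1 / ((q : ℕ) : ℝ) + 1 / (((q : ℕ) : ℝ) + ((6 : ℕ) : ℝ)))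
      ≤ ∑' p : {p : ℕ // GapPair 6 p}, (1 / (p : ℝ) + 1 / ((p : ℝ) + ((6 : ℕ) : ℝ))) := h1
  rw [Finset.sum_attach T (fun q : ℕ => 1 / (q : ℝ) + 1 / ((q : ℝ) + ((6 : ℕ) : ℝ)))] at h1'
  clear h1
  have h2 : ((880515842829664 : ℕ) : ℝ) ≤ K * ∑ q ∈ T, (1 / (q : ℝ) + 1 / ((q : ℝ) + ((6 : ℕ) : ℝ))) := by
    have h3 : ((880515842829664 : ℕ) : ℝ) ≤ ((∑ q ∈ T, con q : ℕ) : ℝ) := by exact_mod_cast hs
    refine h3.trans ?_
    push_cast
    rw [mul_sum]
    exact sum_le_sum (fun q _ => con_le q)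
  have hK : (K : ℝ) = 1000000000000000 := by unfold K; norm_num
  rw [hK] at h2
  unfold Btilde
  push_cast at h2 h1' ⊢
  linarith

theorem main : wolf 6 < Btilde 6 := by
  have h1 := wolf_six
  have h2 := Btilde_six
  linarith

end Pool.Agent.Q47.Wolf
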